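import Pool.Agent.Q236.CR.Stm

/-!
# Project CR, job CHR: from additive phases to Dirichlet characters
-/

set_option autoImplicit false

namespace Pool.Agent.Q154.CR

open Finset
open Pool.Agent.H469R2.NK (e)
open Pool.Agent.Q236.CR

lemma e_int (k : ℤ) : e (k : ℝ) = 1 := by
  unfold e
  rw [Complex.exp_eq_one_iff]
  exact ⟨k, by push_cast; ring⟩

lemma e_pow (x : ℝ) (n : ℕ) : e x ^ n = e (n * x) := by
  unfold e
  rw [← Complex.exp_nat_mul]
  congr 1
  push_cast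
  ring

/-- orthogonality: `∑_{a < q} e(a k / q) = q` if `q ∣ k`, else `0` -/
lemma orth (q : ℕ) (hq : 0 < q) (k : ℤ) :
    ∑ a ∈ range q, e ((a : ℝ) * (k / q)) = if (q : ℤ) ∣ k then (q : ℂ) else 0 := by
  have hq' : (q : ℝ) ≠ 0 := by positivity
  split_ifs with h
  · obtain ⟨m, rfl⟩ := h
    have : ∀ a ∈ range q, e ((a : ℝ) * (((q * m : ℤ) : ℝ) / q)) = 1 := by
      intro a _
      have h1 : (a : ℝ) * (((q * m : ℤ) : ℝ) / q) = ((a * m : ℤ) : ℝ) := by
        push_cast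
        field_simp
      rw [h1, e_int]
    rw [Finset.sum_congr rfl this]
    simp
  · have h1 : ∀ a ∈ range q, e ((a : ℝ) * (k / q)) = e ((k : ℝ) / q) ^ a := by
      intro a _
      rw [e_pow]
    rw [Finset.sum_congr rfl h1]
    have hne : e ((k : ℝ) / q) ≠ 1 := by
      intro he
      unfold e at he
      rw [Complex.exp_eq_one_iff] at he
      obtain ⟨n, hn⟩ := he
      apply h
      have h2 : (2 * Real.pi * ((k : ℝ) / q) : ℝ) = n * (2 * Real.pi) := by
        have h3 : (((2 * Real.pi * ((k : ℝ) / q) : ℝ) : ℂ)) * Complex.I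
            = ((n * (2 * Real.pi) : ℝ) : ℂ) * Complex.I := by
          rw [hn]; push_cast; ring
        exact_mod_cast mul_right_cancel₀ Complex.I_ne_zero h3
      have h3 : ((k : ℝ) / q) = n := by
        have : (2 * Real.pi : ℝ) ≠ 0 := by positivity
        apply mul_left_cancel₀ this
        rw [h2]; ring
      rw [div_eq_iff hq'] at h3
      have h4 : k = n * q := by exact_mod_cast h3
      exact ⟨n, by rw [h4]; ring⟩
    rw [geom_sum_eq hne, e_pow]
    have h5 : e ((q : ℝ) * ((k : ℝ) / q)) = 1 := by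
      rw [mul_div_cancel₀ _ hq', e_int]
    rw [h5, sub_self, zero_div]

/-- the Fourier coefficient -/
noncomputable def cf (q : ℕ) (f : ℕ → ℂ) (a : ℕ) : ℂ :=
  (1 / (q : ℂ)) * ∑ b ∈ range q, f b * e (-((a : ℝ) * (b / q)))

lemma cf_le (q : ℕ) (hq : 0 < q) (f : ℕ → ℂ) (hf : ∀ b, ‖f b‖ ≤ 1) (a : ℕ) : ‖cf q f a‖ ≤ 1 := by
  unfold cf
  rw [norm_mul]
  have h1 : ‖∑ b ∈ range q, f b * e (-((a : ℝ) * (b / q)))‖ ≤ q := by
    calc _ ≤ ∑ b ∈ range q, ‖f b * e (-((a : ℝ) * (b / q)))‖ := norm_sum_le _ _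
      _ ≤ ∑ b ∈ range q, (1 : ℝ) := by
        apply Finset.sum_le_sum
        intro b _
        rw [norm_mul, Pool.Agent.H469R2.NK.norm_e, mul_one]
        exact hf b
      _ = q := by simp
  have h2 : ‖(1 / (q : ℂ))‖ = 1 / (q : ℝ) := by
    rw [norm_div, norm_one, Complex.norm_natCast]
  rw [h2]
  have : (0 : ℝ) < q := by exact_mod_cast hq
  calc 1 / (q : ℝ) * ‖∑ b ∈ range q, f b * e (-((a : ℝ) * (b / q)))‖ ≤ 1 / (q : ℝ) * q := by
        apply mul_le_mul_of_nonneg_left h1 (by positivity)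
    _ = 1 := by field_simp

lemma expand (q : ℕ) (hq : 0 < q) (f : ℕ → ℂ) (hper : ∀ n, f (n % q) = f n) (n : ℕ) :
    f n = ∑ a ∈ range q, cf q f a * e (((a : ℝ) / q) * n) := by
  have hq' : (q : ℂ) ≠ 0 := by
    have : q ≠ 0 := by omega
    exact_mod_cast this
  unfold cf
  have h1 : ∀ a ∈ range q, (1 / (q : ℂ)) * (∑ b ∈ range q, f b * e (-((a : ℝ) * (b / q)))) *
      e (((a : ℝ) / q) * n)
      = (1 / (q : ℂ)) * ∑ b ∈ range q, f b * e ((a : ℝ) * (((((n : ℤ) - (b : ℤ)) : ℤ) : ℝ) / q)) := by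
    intro a _
    rw [mul_assoc, Finset.sum_mul]
    congr 1
    apply Finset.sum_congr rfl
    intro b _
    rw [mul_assoc, ← Pool.Agent.H469R2.NK.e_add]
    congr 2
    push_cast
    ring
  rw [Finset.sum_congr rfl h1, ← Finset.mul_sum, Finset.sum_comm]
  have h2 : ∀ b ∈ range q, ∑ a ∈ range q, f b * e ((a : ℝ) * (((((n : ℤ) - (b : ℤ)) : ℤ) : ℝ) / q))
      = if b = n % q then f b * q else 0 := by
    intro b hb
    rw [← Finset.mul_sum, orth q hq]
    have hb' := Finset.mem_range.mp hb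
    by_cases h : b = n % q
    · rw [if_pos h, if_pos]
      rw [h]
      push_cast
      exact Int.dvd_self_sub_emod
    · rw [if_neg h, if_neg, mul_zero]
      intro hd
      apply h
      have h3 : (b : ℤ) ≡ (n : ℤ) [ZMOD q] := Int.modEq_iff_dvd.mpr hd
      have h4 : b ≡ n [MOD q] := Int.natCast_modEq_iff.mp h3
      have h5 : b % q = n % q := h4
      rwa [Nat.mod_eq_of_lt hb'] at h5
  rw [Finset.sum_congr rfl h2, Finset.sum_ite_eq' (range q) (n % q) (fun b => f b * q),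
    if_pos (Finset.mem_range.mpr (Nat.mod_lt _ hq)), hper]
  field_simp

lemma main (q : ℕ) (hq : NeZero q) (χ : DirichletCharacter ℂ q) (N N' : ℕ) (t R : ℝ)
    (h : ∀ β : ℝ, ‖∑ n ∈ Finset.Ioc N N', e (β * n) * nt t n‖ ≤ R) :
    ‖∑ n ∈ Finset.Ioc N N', χ (n : ZMod q) * nt t n‖ ≤ q * R := by
  have hq0 : 0 < q := Nat.pos_of_ne_zero hq.out
  have hper : ∀ n : ℕ, χ ((n % q : ℕ) : ZMod q) = χ (n : ZMod q) := by
    intro n
    rw [ZMod.natCast_mod]
  have h1 : ∀ n ∈ Finset.Ioc N N', χ (n : ZMod q) * nt t n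
      = ∑ a ∈ range q, cf q (fun n => χ (n : ZMod q)) a * (e (((a : ℝ) / q) * n) * nt t n) := by
    intro n _
    have h0 : χ (n : ZMod q) = ∑ a ∈ range q, cf q (fun n => χ (n : ZMod q)) a *
        e (((a : ℝ) / q) * n) := expand q hq0 (fun n => χ (n : ZMod q)) hper n
    rw [h0, Finset.sum_mul]
    apply Finset.sum_congr rfl
    intro a _
    ring
  rw [Finset.sum_congr rfl h1, Finset.sum_comm]
  calc _ ≤ ∑ a ∈ range q, ‖∑ n ∈ Finset.Ioc N N', cf q (fun n => χ (n : ZMod q)) a *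
        (e (((a : ℝ) / q) * n) * nt t n)‖ := norm_sum_le _ _
    _ ≤ ∑ a ∈ range q, R := by
      apply Finset.sum_le_sum
      intro a _
      rw [← Finset.mul_sum, norm_mul]
      have h2 := cf_le q hq0 (fun n => χ (n : ZMod q)) (fun b => DirichletCharacter.norm_le_one χ _) a
      calc _ ≤ 1 * ‖∑ n ∈ Finset.Ioc N N', e (((a : ℝ) / q) * n) * nt t n‖ :=
            mul_le_mul_of_nonneg_right h2 (norm_nonneg _)
        _ ≤ R := by rw [one_mul]; exact h _
    _ = q * R := by simp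

/-- **CHR** -/
theorem chr : S_ZSB → S_SDB → S_CHR := by
  rintro ⟨C, c, hc, hc1, hz⟩ ⟨C', hC', hs⟩
  refine ⟨⟨C, c, hc, hc1, ?_⟩, ⟨C', hC', ?_⟩⟩
  · intro q hq χ N N' t κ hN hNN hN2 hκ ht
    exact main q hq χ N N' t _ (fun β => hz N N' t κ β hN hNN hN2 hκ ht)
  · intro q hq χ N N' t hN hNN hN2 ht
    exact main q hq χ N N' t _ (fun β => hs N N' t β hN hNN hN2 ht)

end Pool.Agent.Q154.CR
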