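import Pool.Agent.Q236.CR.Stm3

/-!
# Project CR, job ER: the second moment of the number of prime sets
-/

set_option autoImplicit false

namespace Pool.Agent.Q154.CR

open Finset Filter Polynomial
open Pool.Agent.H373R2.T7 (pz mem_pz sum_pz_le)
open Pool.Agent.Q236.CR

/-- the weighted sum over pairs of subsets factors -/
lemma pairs_prod (δ : ℕ → ℝ) (c : ℝ) (S : Finset ℕ) :
    ∑ T ∈ S.powerset, ∑ T' ∈ S.powerset, c ^ (T.card + T'.card) * ∏ p ∈ T ∪ T', δ p =
      ∏ p ∈ S, (1 + (2 * c + c ^ 2) * δ p) := by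
  classical
  induction S using Finset.induction_on with
  | empty => simp
  | insert a S ha ih =>
    rw [Finset.sum_powerset_insert ha, Finset.prod_insert ha]
    simp_rw [Finset.sum_powerset_insert ha, Finset.sum_add_distrib]
    have hsub : ∀ T ∈ S.powerset, a ∉ T := fun T hT h => ha (Finset.mem_powerset.mp hT h)
    have e1 : ∑ T ∈ S.powerset, ∑ T' ∈ S.powerset,
        c ^ (T.card + (insert a T').card) * ∏ p ∈ T ∪ insert a T', δ p =
        (c * δ a) * ∑ T ∈ S.powerset, ∑ T' ∈ S.powerset,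
          c ^ (T.card + T'.card) * ∏ p ∈ T ∪ T', δ p := by
      rw [Finset.mul_sum]
      refine Finset.sum_congr rfl fun T hT => ?_
      rw [Finset.mul_sum]
      refine Finset.sum_congr rfl fun T' hT' => ?_
      have h1 : a ∉ T ∪ T' := by
        rw [Finset.mem_union]
        exact fun h => h.elim (hsub T hT) (hsub T' hT')
      rw [Finset.union_insert, Finset.prod_insert h1, Finset.card_insert_of_notMem (hsub T' hT')]
      ring
    have e2 : ∑ T ∈ S.powerset, ∑ T' ∈ S.powerset,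
        c ^ ((insert a T).card + T'.card) * ∏ p ∈ insert a T ∪ T', δ p =
        (c * δ a) * ∑ T ∈ S.powerset, ∑ T' ∈ S.powerset,
          c ^ (T.card + T'.card) * ∏ p ∈ T ∪ T', δ p := by
      rw [Finset.mul_sum]
      refine Finset.sum_congr rfl fun T hT => ?_
      rw [Finset.mul_sum]
      refine Finset.sum_congr rfl fun T' hT' => ?_
      have h1 : a ∉ T ∪ T' := by
        rw [Finset.mem_union]
        exact fun h => h.elim (hsub T hT) (hsub T' hT')
      rw [Finset.insert_union, Finset.prod_insert h1, Finset.card_insert_of_notMem (hsub T hT)]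
      ring
    have e3 : ∑ T ∈ S.powerset, ∑ T' ∈ S.powerset,
        c ^ ((insert a T).card + (insert a T').card) * ∏ p ∈ insert a T ∪ insert a T', δ p =
        (c ^ 2 * δ a) * ∑ T ∈ S.powerset, ∑ T' ∈ S.powerset,
          c ^ (T.card + T'.card) * ∏ p ∈ T ∪ T', δ p := by
      rw [Finset.mul_sum]
      refine Finset.sum_congr rfl fun T hT => ?_
      rw [Finset.mul_sum]
      refine Finset.sum_congr rfl fun T' hT' => ?_
      have h1 : a ∉ T ∪ T' := by
        rw [Finset.mem_union]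
        exact fun h => h.elim (hsub T hT) (hsub T' hT')
      have h2 : insert a T ∪ insert a T' = insert a (T ∪ T') := by
        rw [Finset.insert_union, Finset.union_insert, Finset.insert_idem]
      rw [h2, Finset.prod_insert h1, Finset.card_insert_of_notMem (hsub T hT),
        Finset.card_insert_of_notMem (hsub T' hT')]
      ring
    rw [e1, e2, e3, ih]
    ring

lemma dk_nonneg (k p : ℕ) (hp : 1 ≤ p) : 0 ≤ dk k p := by
  unfold dk
  have h1 : (1 : ℝ) ≤ p := by exact_mod_cast hp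
  have h2 : 0 ≤ 1 - 1 / (p : ℝ) := by
    rw [sub_nonneg, div_le_one (by linarith)]
    exact h1
  have h3 : 1 - 1 / (p : ℝ) ≤ 1 := by
    have : 0 ≤ 1 / (p : ℝ) := by positivity
    linarith
  have := pow_le_one₀ (n := k) h2 h3
  linarith

lemma dk_le (k p : ℕ) (hp : 1 ≤ p) : dk k p ≤ k * (1 / (p : ℝ)) := by
  unfold dk
  have h1 : (1 : ℝ) ≤ p := by exact_mod_cast hp
  have h2 : 1 / (p : ℝ) ≤ 1 := by
    rw [div_le_one (by linarith)]
    exact h1
  have h3 := one_add_mul_le_pow (a := -(1 / (p : ℝ))) (by linarith) k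
  have h4 : (1 + -(1 / (p : ℝ))) ^ k = (1 - 1 / (p : ℝ)) ^ k := by rw [← sub_eq_add_neg]
  rw [h4] at h3
  linarith

lemma exp_half_bound : 2 * Real.exp (1 / 2) + Real.exp (1 / 2) ^ 2 ≤ 7 := by
  have h1 : Real.exp (1 / 2) ^ 2 = Real.exp 1 := by
    rw [← Real.exp_nat_mul]
    norm_num
  have h2 : Real.exp 1 < 2.7182818286 := Real.exp_one_lt_d9
  have h3 : Real.exp (1 / 2) ≤ 2 := by
    by_contra hc
    push Not at hc
    have : (2 : ℝ) ^ 2 < Real.exp (1 / 2) ^ 2 := pow_lt_pow_left₀ hc (by norm_num) (by norm_num)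
    rw [h1] at this
    linarith
  rw [h1]
  linarith

/-- the main term -/
lemma main_term (k z r : ℕ) (hz : 1 ≤ z) :
    ∑ T ∈ (pz z).powersetCard r, ∑ T' ∈ (pz z).powersetCard r, ∏ p ∈ T ∪ T', dk k p ≤
      (3 * (z : ℝ)) ^ (7 * k) * Real.exp (-(r : ℝ)) := by
  classical
  have hpos : ∀ p ∈ pz z, 1 ≤ p := fun p hp => (mem_pz.mp hp).2.one_lt.le
  have hprod0 : ∀ T ∈ (pz z).powerset, ∀ T' ∈ (pz z).powerset, 0 ≤ ∏ p ∈ T ∪ T', dk k p := by
    intro T hT T' hT'
    apply Finset.prod_nonneg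
    intro p hp
    apply dk_nonneg
    apply hpos
    rw [Finset.mem_union] at hp
    exact hp.elim (fun h => Finset.mem_powerset.mp hT h) (fun h => Finset.mem_powerset.mp hT' h)
  have hsub : (pz z).powersetCard r ⊆ (pz z).powerset := by
    intro T hT
    exact Finset.mem_powerset.mpr (Finset.mem_powersetCard.mp hT).1
  have h1 : ∀ T ∈ (pz z).powersetCard r, ∀ T' ∈ (pz z).powersetCard r,
      ∏ p ∈ T ∪ T', dk k p = Real.exp (-(r : ℝ)) *
        (Real.exp (1 / 2) ^ (T.card + T'.card) * ∏ p ∈ T ∪ T', dk k p) := by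
    intro T hT T' hT'
    rw [(Finset.mem_powersetCard.mp hT).2, (Finset.mem_powersetCard.mp hT').2, ← mul_assoc,
      ← Real.exp_nat_mul, ← Real.exp_add]
    have : -(r : ℝ) + ((r + r : ℕ) : ℝ) * (1 / 2) = 0 := by push_cast; ring
    rw [this, Real.exp_zero, one_mul]
  have h2 : ∑ T ∈ (pz z).powersetCard r, ∑ T' ∈ (pz z).powersetCard r, ∏ p ∈ T ∪ T', dk k p =
      Real.exp (-(r : ℝ)) * ∑ T ∈ (pz z).powersetCard r, ∑ T' ∈ (pz z).powersetCard r,
        (Real.exp (1 / 2) ^ (T.card + T'.card) * ∏ p ∈ T ∪ T', dk k p) := by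
    rw [Finset.mul_sum]
    refine Finset.sum_congr rfl fun T hT => ?_
    rw [Finset.mul_sum]
    exact Finset.sum_congr rfl fun T' hT' => h1 T hT T' hT'
  have h3 : ∑ T ∈ (pz z).powersetCard r, ∑ T' ∈ (pz z).powersetCard r,
        (Real.exp (1 / 2) ^ (T.card + T'.card) * ∏ p ∈ T ∪ T', dk k p) ≤
      ∑ T ∈ (pz z).powerset, ∑ T' ∈ (pz z).powerset,
        (Real.exp (1 / 2) ^ (T.card + T'.card) * ∏ p ∈ T ∪ T', dk k p) := by
    have g1 : ∀ T ∈ (pz z).powerset, ∑ T' ∈ (pz z).powersetCard r,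
        (Real.exp (1 / 2) ^ (T.card + T'.card) * ∏ p ∈ T ∪ T', dk k p) ≤
        ∑ T' ∈ (pz z).powerset,
        (Real.exp (1 / 2) ^ (T.card + T'.card) * ∏ p ∈ T ∪ T', dk k p) := by
      intro T hT
      apply Finset.sum_le_sum_of_subset_of_nonneg hsub
      intro T' hT' _
      exact mul_nonneg (by positivity) (hprod0 T hT T' hT')
    calc _ ≤ ∑ T ∈ (pz z).powersetCard r, ∑ T' ∈ (pz z).powerset,
          (Real.exp (1 / 2) ^ (T.card + T'.card) * ∏ p ∈ T ∪ T', dk k p) :=
          Finset.sum_le_sum fun T hT => g1 T (hsub hT)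
      _ ≤ _ := by
        apply Finset.sum_le_sum_of_subset_of_nonneg hsub
        intro T hT _
        apply Finset.sum_nonneg
        intro T' hT'
        exact mul_nonneg (by positivity) (hprod0 T hT T' hT')
  have h4 : ∏ p ∈ pz z, (1 + (2 * Real.exp (1 / 2) + Real.exp (1 / 2) ^ 2) * dk k p) ≤
      (3 * (z : ℝ)) ^ (7 * k) := by
    have g1 : ∏ p ∈ pz z, (1 + (2 * Real.exp (1 / 2) + Real.exp (1 / 2) ^ 2) * dk k p) ≤
        ∏ p ∈ pz z, Real.exp (7 * (k * (1 / (p : ℝ)))) := by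
      apply Finset.prod_le_prod
      · intro p hp
        have := dk_nonneg k p (hpos p hp)
        positivity
      · intro p hp
        have a1 := dk_nonneg k p (hpos p hp)
        have a2 := dk_le k p (hpos p hp)
        have a3 : (2 * Real.exp (1 / 2) + Real.exp (1 / 2) ^ 2) * dk k p ≤
            7 * (k * (1 / (p : ℝ))) :=
          mul_le_mul exp_half_bound a2 a1 (by norm_num)
        have a4 := Real.add_one_le_exp (7 * (k * (1 / (p : ℝ))))
        linarith
    rw [← Real.exp_sum, ← Finset.mul_sum, ← Finset.mul_sum] at g1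
    refine le_trans g1 ?_
    have g2 := sum_pz_le z
    have hz0 : (0 : ℝ) < z := by exact_mod_cast hz
    have g3 : 7 * (k * ∑ p ∈ pz z, 1 / (p : ℝ)) ≤ ((7 * k : ℕ) : ℝ) * (1 + Real.log z) := by
      push_cast
      have : (k : ℝ) * ∑ p ∈ pz z, 1 / (p : ℝ) ≤ k * (1 + Real.log z) :=
        mul_le_mul_of_nonneg_left g2 (by positivity)
      linarith
    calc _ ≤ Real.exp (((7 * k : ℕ) : ℝ) * (1 + Real.log z)) := Real.exp_le_exp.mpr g3
      _ = (Real.exp (1 + Real.log z)) ^ (7 * k) := Real.exp_nat_mul _ _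
      _ ≤ (3 * (z : ℝ)) ^ (7 * k) := by
        apply pow_le_pow_left₀ (Real.exp_pos _).le
        rw [Real.exp_add, Real.exp_log hz0]
        have := Real.exp_one_lt_d9
        nlinarith
  rw [h2]
  calc _ ≤ Real.exp (-(r : ℝ)) * ∑ T ∈ (pz z).powerset, ∑ T' ∈ (pz z).powerset,
        (Real.exp (1 / 2) ^ (T.card + T'.card) * ∏ p ∈ T ∪ T', dk k p) :=
        mul_le_mul_of_nonneg_left h3 (Real.exp_pos _).le
    _ ≤ Real.exp (-(r : ℝ)) * (3 * (z : ℝ)) ^ (7 * k) := by
      rw [pairs_prod]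
      exact mul_le_mul_of_nonneg_left h4 (Real.exp_pos _).le
    _ = _ := mul_comm _ _

lemma card_pz_le (z : ℕ) : (pz z).card ≤ z := by
  unfold Pool.Agent.H373R2.T7.pz
  refine le_trans (Finset.card_filter_le _ _) ?_
  rw [Nat.card_Icc]
  omega

/-- **ER** -/
theorem er : S_EQD → S_ER := by
  classical
  intro hE k s
  obtain ⟨C, hC, hE'⟩ := hE k s
  refine ⟨C, hC, ?_⟩
  intro G H z r n hH hz hzH
  have hH0 : (0 : ℝ) < H := by exact_mod_cast hH
  have hz1 : (1 : ℝ) ≤ (z : ℝ) + 1 := by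
    have : (0 : ℝ) ≤ z := Nat.cast_nonneg z
    linarith
  -- products of primes
  have hprod : ∀ T ∈ (pz z).powersetCard r, ∀ T' ∈ (pz z).powersetCard r,
      ∏ p ∈ T ∪ T', (p : ℝ) ≤ ((z : ℝ) + 1) ^ (2 * r) := by
    intro T hT T' hT'
    obtain ⟨hT1, hT2⟩ := Finset.mem_powersetCard.mp hT
    obtain ⟨hT1', hT2'⟩ := Finset.mem_powersetCard.mp hT'
    calc ∏ p ∈ T ∪ T', (p : ℝ) ≤ ∏ _p ∈ T ∪ T', ((z : ℝ) + 1) := by
          apply Finset.prod_le_prod
          · intro p _
            exact Nat.cast_nonneg p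
          · intro p hp
            have h1 : p ∈ pz z := by
              rw [Finset.mem_union] at hp
              exact hp.elim (fun h => hT1 h) (fun h => hT1' h)
            have h2 : (p : ℝ) ≤ z := by exact_mod_cast (mem_pz.mp h1).1
            linarith
      _ = ((z : ℝ) + 1) ^ (T ∪ T').card := by rw [Finset.prod_const]
      _ ≤ ((z : ℝ) + 1) ^ (2 * r) := by
        apply pow_le_pow_right₀ hz1
        have := Finset.card_union_le T T'
        omega
  have hpr : ∀ T ∈ (pz z).powersetCard r, ∀ T' ∈ (pz z).powersetCard r,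
      ∀ p ∈ T ∪ T', p.Prime := by
    intro T hT T' hT' p hp
    rw [Finset.mem_union] at hp
    exact hp.elim (fun h => (mem_pz.mp ((Finset.mem_powersetCard.mp hT).1 h)).2)
      (fun h => (mem_pz.mp ((Finset.mem_powersetCard.mp hT').1 h)).2)
  -- one pair
  have hpair : ∀ T ∈ (pz z).powersetCard r, ∀ T' ∈ (pz z).powersetCard r,
      ∑ c ∈ SB k s H, xi s G c T n * xi s G c T' n ≤
        (SB k s H).card * ∏ p ∈ T ∪ T', dk k p +
          (SB k s H).card * (C * (((z : ℝ) + 1) ^ (2 * r) / H)) := by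
    intro T hT T' hT'
    have h1 := hE' G H T T' n n hH (hpr T hT T' hT') (le_trans (hprod T hT T' hT') hzH)
    have h2 : ∏ p ∈ T ∪ T', (if p ∈ T ∧ p ∈ T' ∧ ¬ n ≡ n [MOD p] then dk k p ^ 2 else dk k p) =
        ∏ p ∈ T ∪ T', dk k p := by
      refine Finset.prod_congr rfl fun p _ => ?_
      rw [if_neg]
      rintro ⟨_, _, h⟩
      exact h (Nat.ModEq.refl n)
    rw [h2] at h1
    have h3 := (abs_le.mp h1).2
    have h4 : C * ((∏ p ∈ T ∪ T', (p : ℝ)) / H) * (SB k s H).card ≤
        (SB k s H).card * (C * (((z : ℝ) + 1) ^ (2 * r) / H)) := by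
      rw [mul_comm]
      apply mul_le_mul_of_nonneg_left _ (Nat.cast_nonneg _)
      apply mul_le_mul_of_nonneg_left _ hC
      exact div_le_div_of_nonneg_right (hprod T hT T' hT') hH0.le
    linarith
  -- expand
  have hexp : ∑ c ∈ SB k s H, (∑ T ∈ (pz z).powersetCard r, xi s G c T n) ^ 2 =
      ∑ T ∈ (pz z).powersetCard r, ∑ T' ∈ (pz z).powersetCard r,
        ∑ c ∈ SB k s H, xi s G c T n * xi s G c T' n := by
    have g1 : ∀ c ∈ SB k s H, (∑ T ∈ (pz z).powersetCard r, xi s G c T n) ^ 2 =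
        ∑ T ∈ (pz z).powersetCard r, ∑ T' ∈ (pz z).powersetCard r,
          xi s G c T n * xi s G c T' n := by
      intro c _
      rw [pow_two, Finset.sum_mul_sum]
    rw [Finset.sum_congr rfl g1, Finset.sum_comm]
    refine Finset.sum_congr rfl fun T _ => ?_
    rw [Finset.sum_comm]
  rw [hexp]
  have hcard : (((pz z).powersetCard r).card : ℝ) ≤ ((z : ℝ) + 1) ^ r := by
    rw [Finset.card_powersetCard]
    have h1 : (pz z).card.choose r ≤ (z + 1) ^ r := by
      refine le_trans (Nat.choose_le_pow _ _) ?_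
      exact Nat.pow_le_pow_left (by have := card_pz_le z; omega) r
    exact_mod_cast h1
  calc _ ≤ ∑ T ∈ (pz z).powersetCard r, ∑ T' ∈ (pz z).powersetCard r,
        ((SB k s H).card * ∏ p ∈ T ∪ T', dk k p +
          (SB k s H).card * (C * (((z : ℝ) + 1) ^ (2 * r) / H))) :=
        Finset.sum_le_sum fun T hT => Finset.sum_le_sum fun T' hT' => hpair T hT T' hT'
    _ = (SB k s H).card * (∑ T ∈ (pz z).powersetCard r, ∑ T' ∈ (pz z).powersetCard r,
          ∏ p ∈ T ∪ T', dk k p) + (SB k s H).card * ((((pz z).powersetCard r).card : ℝ) *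
          ((((pz z).powersetCard r).card : ℝ) * (C * (((z : ℝ) + 1) ^ (2 * r) / H)))) := by
      simp_rw [Finset.sum_add_distrib, Finset.sum_const, nsmul_eq_mul, Finset.mul_sum]
      ring
    _ ≤ (SB k s H).card * ((3 * (z : ℝ)) ^ (7 * k) * Real.exp (-(r : ℝ))) +
        (SB k s H).card * (C * (((z : ℝ) + 1) ^ (4 * r) / H)) := by
      apply add_le_add
      · exact mul_le_mul_of_nonneg_left (main_term k z r hz) (Nat.cast_nonneg _)
      · apply mul_le_mul_of_nonneg_left _ (Nat.cast_nonneg _)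
        have e1 : (((z : ℝ) + 1) ^ (4 * r)) = ((z : ℝ) + 1) ^ r * (((z : ℝ) + 1) ^ r *
            ((z : ℝ) + 1) ^ (2 * r)) := by
          rw [← pow_add, ← pow_add]
          congr 1
          ring
        rw [e1]
        have e2 : C * (((z : ℝ) + 1) ^ r * (((z : ℝ) + 1) ^ r * ((z : ℝ) + 1) ^ (2 * r)) / H) =
            ((z : ℝ) + 1) ^ r * (((z : ℝ) + 1) ^ r * (C * (((z : ℝ) + 1) ^ (2 * r) / H))) := by
          ring
        rw [e2]
        gcongr
    _ = _ := by ring

end Pool.Agent.Q154.CR
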