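import Pool.Agent.Q236.CR.Stm2

/-!
# Project CR, job WM: windows of the Moebius function
-/

set_option autoImplicit false

namespace Pool.Agent.Q154.CR

open Finset Filter
open Pool.Agent.H469R2.NK (e)
open Pool.Agent.Q236.CR

/-- large powers of the logarithm are small -/
lemma ev_log (C M : ℕ) : ∃ x0 : ℕ, ∀ x : ℕ, x0 ≤ x → Real.log x ^ C ≤ x ∧ (M : ℝ) ≤ Real.log x := by
  have h1 : ∀ᶠ x : ℝ in atTop, Real.log x ^ C ≤ x := by
    have h := (Real.isLittleO_pow_log_id_atTop (n := C)).bound (show (0 : ℝ) < 1 by norm_num)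
    filter_upwards [h, eventually_ge_atTop (1 : ℝ)] with x hx hx1
    have h2 : 0 ≤ Real.log x ^ C := pow_nonneg (Real.log_nonneg hx1) _
    simp only [id, one_mul, Real.norm_eq_abs] at hx
    rw [abs_of_nonneg h2, abs_of_nonneg (by linarith)] at hx
    exact hx
  have h2 : ∀ᶠ x : ℝ in atTop, (M : ℝ) ≤ Real.log x := Real.tendsto_log_atTop.eventually_ge_atTop _
  have h3 := tendsto_natCast_atTop_atTop (R := ℝ) |>.eventually (h1.and h2)
  obtain ⟨x0, h⟩ := eventually_atTop.mp h3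
  exact ⟨x0, h⟩

/-- the lower end of the dyadic ranges -/
lemma range_low (C1 E X0 : ℕ) : ∃ x0 : ℕ, ∀ x : ℕ, x0 ≤ x → 1 ≤ x ∧ 1 ≤ Real.log x ∧
    ∀ x' : ℕ, (x : ℝ) ≤ x' * Real.log x ^ C1 → x' ≤ x →
      X0 ≤ x' ∧ 1 ≤ x' ∧ Real.log x / 2 ≤ Real.log x' ∧ Real.log x' ≤ Real.log x ∧
        ∀ F ≤ E, Real.log x ^ F ≤ Real.log x' ^ (F + 1) := by
  obtain ⟨x1, h1⟩ := ev_log (C1 * 2) (2 ^ (E + 1))
  refine ⟨max x1 (max 1 (X0 ^ 2)), ?_⟩
  intro x hx
  have hx1 : x1 ≤ x := le_trans (le_max_left _ _) hx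
  have hx2 : 1 ≤ x := le_trans (le_trans (le_max_left _ _) (le_max_right _ _)) hx
  have hx3 : X0 ^ 2 ≤ x := le_trans (le_trans (le_max_right _ _) (le_max_right _ _)) hx
  obtain ⟨h2, h3⟩ := h1 x hx1
  have h3' : (2 : ℝ) ^ (E + 1) ≤ Real.log x := by exact_mod_cast h3
  have hL : 1 ≤ Real.log x := le_trans (one_le_pow₀ (by norm_num)) h3'
  refine ⟨hx2, hL, ?_⟩
  intro x' h4 h5
  have hx0 : (0 : ℝ) < x := by exact_mod_cast hx2
  have hsq : (x : ℝ) ≤ (x' : ℝ) ^ 2 := by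
    have e1 : (x : ℝ) ^ 2 ≤ ((x' : ℝ) * Real.log x ^ C1) ^ 2 := pow_le_pow_left₀ hx0.le h4 2
    have e2 : ((x' : ℝ) * Real.log x ^ C1) ^ 2 = (x' : ℝ) ^ 2 * Real.log x ^ (C1 * 2) := by
      rw [mul_pow, ← pow_mul]
    have e3 : (x' : ℝ) ^ 2 * Real.log x ^ (C1 * 2) ≤ (x' : ℝ) ^ 2 * x :=
      mul_le_mul_of_nonneg_left h2 (by positivity)
    have e4 : (x : ℝ) * x ≤ (x' : ℝ) ^ 2 * x := by nlinarith
    exact le_of_mul_le_mul_right e4 hx0
  have hsq' : x ≤ x' ^ 2 := by exact_mod_cast hsq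
  have h6 : X0 ≤ x' := by
    by_contra hc
    push Not at hc
    have : x' ^ 2 < X0 ^ 2 := Nat.pow_lt_pow_left hc (by norm_num)
    omega
  have h7 : 1 ≤ x' := by
    by_contra hc
    push Not at hc
    have : x' = 0 := by omega
    rw [this] at hsq'
    omega
  have hx'0 : (0 : ℝ) < x' := by exact_mod_cast h7
  have h8 : Real.log x / 2 ≤ Real.log x' := by
    have e1 := Real.log_le_log hx0 hsq
    rw [Real.log_pow] at e1
    push_cast at e1
    linarith
  have h9 : Real.log x' ≤ Real.log x := Real.log_le_log hx'0 (by exact_mod_cast h5)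
  refine ⟨h6, h7, h8, h9, ?_⟩
  intro F hF
  have e1 : (Real.log x / 2) ^ (F + 1) ≤ Real.log x' ^ (F + 1) :=
    pow_le_pow_left₀ (by positivity) h8 _
  have e2 : Real.log x ^ F ≤ (Real.log x / 2) ^ (F + 1) := by
    rw [div_pow, le_div_iff₀ (by positivity), pow_succ (Real.log x) F]
    apply mul_le_mul_of_nonneg_left _ (by positivity)
    exact le_trans (pow_le_pow_right₀ (by norm_num) (by omega)) h3'
  exact le_trans e2 e1

/-- **WM** -/
theorem wm : S_SIA → S_COV → S_WM := by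
  intro hS hC E1 U1
  obtain ⟨C1, x1, h1⟩ := hC U1
  obtain ⟨C2, x2, h2⟩ := hS (E1 + 1) (U1 + 3)
  obtain ⟨x3, h3⟩ := range_low C1 (E1 + U1 + 2) x2
  refine ⟨C1 + C2, max x1 x3, ?_⟩
  intro x hx q hq hqE b Y hY1 hY2
  obtain ⟨hx1, hL, h4⟩ := h3 x (le_trans (le_max_right _ _) hx)
  have hx0 : (0 : ℝ) < x := by exact_mod_cast hx1
  have hL0 : 0 < Real.log x := by linarith
  have hY0 : 1 ≤ Y := by
    by_contra hc
    push Not at hc
    have : Y = 0 := by omega
    rw [this] at hY1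
    have : 0 < (x : ℝ) ^ (1 / 3 : ℝ) * Real.log x ^ (C1 + C2) := by positivity
    push_cast at hY1
    linarith
  have hcut : ∀ n, cut x fM n * e ((b : ℝ) * n / q) =
      cut x (fun n => fM n * e ((b : ℝ) * n / q)) n := by
    intro n
    unfold cut
    split_ifs
    · rfl
    · rw [zero_mul]
  simp_rw [hcut]
  have hCC : Real.log x ^ C1 ≤ Real.log x ^ (C1 + C2) := pow_le_pow_right₀ hL (by omega)
  apply h1 x (le_trans (le_max_left _ _) hx) (fun n => fM n * e ((b : ℝ) * n / q)) Y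
  · intro n _
    show ‖fM n * e ((b : ℝ) * n / q)‖ ≤ _
    rw [norm_mul, Pool.Agent.H469R2.NK.norm_e, mul_one]
    have e1 : ‖fM n‖ ≤ 1 := by
      unfold fM
      rw [Complex.norm_intCast]
      have := ArithmeticFunction.abs_moebius_le_one (n := n)
      exact_mod_cast this
    exact le_trans e1 (one_le_pow₀ hL)
  · exact hY0
  · exact le_trans (mul_le_mul_of_nonneg_left hCC (by positivity)) hY2
  · intro x' h5 h6
    obtain ⟨g1, g2, g3, g4, g5⟩ := h4 x' h5 h6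
    have hx'0 : (0 : ℝ) < x' := by exact_mod_cast g2
    have hL' : 0 < Real.log x' := by linarith
    have f1 : (q : ℝ) ≤ Real.log x' ^ (E1 + 1) := le_trans hqE (g5 E1 (by omega))
    have f2 : (x' : ℝ) ^ (1 / 3 : ℝ) * Real.log x' ^ C2 ≤ Y := by
      refine le_trans ?_ hY1
      have a1 : (x' : ℝ) ^ (1 / 3 : ℝ) ≤ (x : ℝ) ^ (1 / 3 : ℝ) :=
        Real.rpow_le_rpow hx'0.le (by exact_mod_cast h6) (by norm_num)
      have a2 : Real.log x' ^ C2 ≤ Real.log x ^ (C1 + C2) :=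
        le_trans (pow_le_pow_left₀ hL'.le g4 _) (pow_le_pow_right₀ hL (by omega))
      exact mul_le_mul a1 a2 (by positivity) (by positivity)
    have f3 : Y ≤ x' := by
      have a1 : (Y : ℝ) * Real.log x ^ (C1 + C2) ≤ x' * Real.log x ^ (C1 + C2) := by
        calc _ ≤ _ := hY2
          _ ≤ _ := h5
          _ ≤ _ := mul_le_mul_of_nonneg_left hCC hx'0.le
      have a2 : (Y : ℝ) ≤ x' := le_of_mul_le_mul_right a1 (by positivity)
      exact_mod_cast a2
    have f4 := (h2 x' g1 q hq f1 b Y f2 f3).2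
    calc _ ≤ _ := f4
      _ ≤ _ := by
        apply div_le_div_of_nonneg_left (by positivity) (by positivity)
        exact g5 (U1 + 2) (by omega)

end Pool.Agent.Q154.CR
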